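import Mathlib
import Pool.Agent.Q230.BzT112

/-!
# Type-112 tilings of the `(n+2, 2n)`-benzel

MP_65d510_co, Q1: for every `n ≥ 1`, the number `T₁₁₂(n+2, 2n)` of tilings of the
`(n+2, 2n)`-benzel by right stones, left stones and bones in two fixed directions is
`r_n = S_n - S_{n-1}`, where `S_n` are the large Schröder numbers. The theorem holds for each of
the three choices of the forbidden bone direction `i`.

The definitions `benzel`, `IsRightStone`, `IsLeftStone`, `IsBone`, `IsTiling`, `numTilings` are in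
`Pool/Agent/Q230/BzDefs.lean`; `IsRoyalPath` and `largeSchroeder` are in
`Pool/Agent/Q230/BzSchr.lean`.
-/

namespace Pool.Agent.Results.MP_65d510_co.RoyalCount

open Q230.Benzel

theorem result (n : ℕ) (hn : 1 ≤ n) (i : Fin 3) :
    (numTilings (fun t => IsRightStone t ∨ IsLeftStone t ∨ ∃ j, j ≠ i ∧ IsBone j t)
      (benzel (n+2) (2*n)) : ℤ) = largeSchroeder n - largeSchroeder (n-1) := by
  obtain ⟨m, rfl⟩ : ∃ m, n = m + 1 := ⟨n - 1, by omega⟩
  rw [Q230.Bz.schroeder_eq, Q230.Bz.schroeder_eq]
  exact Q230.Bz.T112B i m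

end Pool.Agent.Results.MP_65d510_co.RoyalCount
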